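import Mathlib

namespace Pool.Agent.Results.MP_f53aaa_nt.ResidueClass

theorem inv : ∀ n : ℕ, ∀ d b : ℤ, 0 ≤ b → 0 ≤ d → b ≤ n → d ^ 2 = 8 * b ^ 2 + 1 →
    (b % 2 = 0 ∧ b % 3 = 0 ∧ d % 3 ≠ 0) ∨ (b % 2 = 1 ∧ b % 3 ≠ 0 ∧ d % 3 = 0) := by
  intro n
  induction n with
  | zero =>
    intro d b hb hd hn h
    have hb0 : b = 0 := by push_cast at hn; omega
    subst hb0
    have : d = 1 := by nlinarith
    subst this
    left; norm_num
  | succ n ih =>
    intro d b hb hd hn h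
    rcases hb.eq_or_lt with h0 | h0
    · subst h0
      have : d = 1 := by nlinarith
      subst this
      left; norm_num
    · have h1 : 2 * b < d := by nlinarith
      have h2 : d ≤ 3 * b := by nlinarith
      have h3 : 8 * b < 3 * d := by nlinarith
      have hi := ih (3 * d - 8 * b) (3 * b - d) (by linarith) (by linarith)
        (by push_cast at hn; linarith) (by nlinarith)
      have hodd : d % 2 = 1 := by
        rcases Int.even_or_odd d with he | ho
        · exfalso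
          obtain ⟨e, rfl⟩ := he
          have : (e + e) ^ 2 = 2 * (2 * e ^ 2) := by ring
          rw [this] at h
          generalize e ^ 2 = u at h
          generalize b ^ 2 = v at h
          omega
        · exact Int.odd_iff.mp ho
      omega

/-- Every admissible prime is `≡ 73 mod 4608`. -/
theorem result (p : ℕ) (hp : p.Prime) (h : ∃ b d : ℤ, (p : ℤ) = 64 * b ^ 2 + 9 ∧ (p : ℤ) = 8 * d ^ 2 + 1) :
    p % 4608 = 73 := by
  obtain ⟨b, d, hb, hd⟩ := h
  have hb' : (p : ℤ) = 64 * |b| ^ 2 + 9 := by rw [sq_abs]; exact hb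
  have hd' : (p : ℤ) = 8 * |d| ^ 2 + 1 := by rw [sq_abs]; exact hd
  have h0 : |d| ^ 2 = 8 * |b| ^ 2 + 1 := by linarith
  have hi := inv (|b|).toNat |d| |b| (abs_nonneg _) (abs_nonneg _)
    (by rw [Int.toNat_of_nonneg (abs_nonneg _)]) h0
  generalize |b| = x at *
  generalize |d| = y at *
  rcases hi with ⟨h1, h2, h3⟩ | ⟨h1, h2, h3⟩
  · exfalso
    obtain ⟨c, hc⟩ : (3 : ℤ) ∣ x := Int.dvd_of_emod_eq_zero h2
    have : (3 : ℤ) ∣ (p : ℤ) := ⟨64 * 3 * c ^ 2 + 3, by rw [hb', hc]; ring⟩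
    have h3p : 3 ∣ p := by exact_mod_cast this
    have := (Nat.prime_dvd_prime_iff_eq Nat.prime_three hp).mp h3p
    have hx : 0 ≤ x ^ 2 := sq_nonneg x
    subst this
    push_cast at hb'
    linarith
  · obtain ⟨e, he⟩ : (3 : ℤ) ∣ y := Int.dvd_of_emod_eq_zero h3
    have hx : ∃ c, x = 2 * c + 1 := ⟨x / 2, by omega⟩
    obtain ⟨c, hc⟩ := hx
    have h5 : (p : ℤ) = 73 + 256 * (c * (c + 1)) := by rw [hb', hc]; ring
    obtain ⟨w, hw⟩ : (2 : ℤ) ∣ c * (c + 1) := (Int.even_mul_succ_self c).two_dvd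
    rw [hw] at h5
    have h6 : (p : ℤ) = 72 * e ^ 2 + 1 := by rw [hd', he]; ring
    generalize e ^ 2 = s at h6
    omega

end Pool.Agent.Results.MP_f53aaa_nt.ResidueClass
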