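import Mathlib

namespace Pool.Agent.Results.MP_f53aaa_nt.SubprogressionPrimes

/-- The Pell sequence `(d_m, b_m)` with `d_m + b_m √8 = (3 + √8)^m`. -/
def pell : ℕ → ℕ × ℕ
  | 0 => (1, 0)
  | m + 1 => (3 * (pell m).1 + 8 * (pell m).2, (pell m).1 + 3 * (pell m).2)

/-- The common value `8 d_m^2 + 1 = 64 b_m^2 + 9`. -/
def P (m : ℕ) : ℕ := 8 * (pell m).1 ^ 2 + 1

theorem factor8 (b d : ℤ) (h : d ^ 2 - 8 * b ^ 2 = 1) (q : ℕ) (hq : q.Prime)
    (hdiv : (q : ℤ) ∣ 8 * d ^ 2 + 1) : q = 3 ∨ q % 8 = 1 := by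
  by_cases h3 : q = 3
  · exact Or.inl h3
  right
  have : Fact q.Prime := ⟨hq⟩
  have hq2 : q ≠ 2 := by
    rintro rfl
    obtain ⟨c, hc⟩ := hdiv
    push_cast at hc
    generalize d ^ 2 = u at hc
    omega
  have hz : ((8 * d ^ 2 + 1 : ℤ) : ZMod q) = 0 := (ZMod.intCast_zmod_eq_zero_iff_dvd _ q).mpr hdiv
  have hz2 : ((64 * b ^ 2 + 9 : ℤ) : ZMod q) = 0 := by
    rw [← hz]; congr 1; linarith
  push_cast at hz hz2
  have s1 : IsSquare (-2 : ZMod q) := ⟨4 * d, by linear_combination (-2 : ZMod q) * hz⟩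
  have h3' : (3 : ZMod q) ≠ 0 := by
    intro hh
    have : ((3 : ℕ) : ZMod q) = 0 := by exact_mod_cast hh
    rw [ZMod.natCast_eq_zero_iff] at this
    exact h3 ((Nat.prime_dvd_prime_iff_eq hq Nat.prime_three).mp this)
  have s2 : IsSquare (-1 : ZMod q) := ⟨8 * b / 3, by
    field_simp
    linear_combination (-1 : ZMod q) * hz2⟩
  have t1 := (ZMod.exists_sq_eq_neg_two_iff hq2).mp s1
  have t2 := ZMod.exists_sq_eq_neg_one_iff.mp s2
  omega

/-- periodicity modulo `N` -/
theorem period (N : ℕ) (hN : 0 < N) : ∃ T, 0 < T ∧ ∀ m j : ℕ, P (m + j * T) ≡ P m [MOD N] := by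
  have : NeZero N := ⟨hN.ne'⟩
  let A : Matrix (Fin 2) (Fin 2) (ZMod N) := !![3, 8; 1, 3]
  have hdet : A.det = 1 := by simp [A, Matrix.det_fin_two]; ring
  let S : Matrix.SpecialLinearGroup (Fin 2) (ZMod N) := ⟨A, hdet⟩
  have : Finite (Matrix.SpecialLinearGroup (Fin 2) (ZMod N)) := inferInstance
  have key : ∀ m : ℕ, (((pell m).1 : ZMod N) = (A ^ m) 0 0) ∧ (((pell m).2 : ZMod N) = (A ^ m) 1 0) := by
    intro m
    induction m with
    | zero => simp [pell]
    | succ m ih =>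
      rw [pow_succ']
      simp only [pell, Matrix.mul_apply, Fin.sum_univ_two]
      push_cast
      rw [ih.1, ih.2]
      simp [A]
  refine ⟨orderOf S, orderOf_pos S, fun m j => ?_⟩
  have hS : S ^ (m + j * orderOf S) = S ^ m := by
    rw [pow_add, mul_comm j, pow_mul, pow_orderOf_eq_one, one_pow, mul_one]
  have hA : A ^ (m + j * orderOf S) = A ^ m := by
    have := congrArg (fun s : Matrix.SpecialLinearGroup (Fin 2) (ZMod N) => (s : Matrix (Fin 2) (Fin 2) (ZMod N))) hS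
    rw [Matrix.SpecialLinearGroup.coe_pow, Matrix.SpecialLinearGroup.coe_pow] at this
    exact this
  rw [← ZMod.natCast_eq_natCast_iff]
  unfold P
  push_cast
  rw [(key _).1, (key m).1, hA]

theorem pell_pos (m : ℕ) : 0 < (pell m).1 := by
  induction m with
  | zero => simp [pell]
  | succ m ih => simp only [pell]; omega

theorem pell_lt (m : ℕ) : (pell m).1 < (pell (m + 1)).1 := by
  have := pell_pos m
  simp only [pell]; omega

theorem P_strict : StrictMono P := by
  apply strictMono_nat_of_lt_succ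
  intro m
  unfold P
  have := Nat.pow_lt_pow_left (pell_lt m) (n := 2) (by norm_num)
  omega

theorem step (k : ℕ) : ∀ r M : ℕ, 0 < M → ∃ (r' M' : ℕ) (S : Finset ℕ), 0 < M' ∧ M ∣ M' ∧ r' ≡ r [MOD M] ∧
    S.card = k ∧ (∀ q ∈ S, q.Prime) ∧ ∀ q ∈ S, ∀ j, q ∣ P (r' + j * M') := by
  induction k with
  | zero =>
    intro r M hM
    exact ⟨r, M, ∅, hM, dvd_rfl, rfl, by simp, by simp, by simp⟩
  | succ k ih =>
    intro r M hM
    obtain ⟨r₁, M₁, S, hM₁, hMM, hr, hS, hpr, hdv⟩ := ih r M hM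
    have hPpos : 0 < P r₁ := by unfold P; omega
    obtain ⟨T, hT, hper⟩ := period (P r₁ ^ 2) (by positivity)
    have h1 := hper r₁ M₁
    have hlt : P r₁ < P (r₁ + M₁ * T) := P_strict (by nlinarith)
    -- P (r₁ + M₁ T) = P r₁ * (1 + P r₁ c)
    obtain ⟨c, hc⟩ : P r₁ ^ 2 ∣ P (r₁ + M₁ * T) - P r₁ := (Nat.modEq_iff_dvd' hlt.le).mp h1.symm
    have heq : P (r₁ + M₁ * T) = P r₁ * (1 + P r₁ * c) := by
      have : P (r₁ + M₁ * T) = P r₁ ^ 2 * c + P r₁ := by omega
      rw [this]; ring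
    have hne : 1 + P r₁ * c ≠ 1 := by
      intro h
      rw [h, mul_one] at heq
      omega
    obtain ⟨q, hq, hqd⟩ := Nat.exists_prime_and_dvd hne
    have hqP : ¬ q ∣ P r₁ := by
      intro h
      have : q ∣ 1 := (Nat.dvd_add_left (h.mul_right c)).mp hqd
      exact hq.one_lt.ne' (Nat.dvd_one.mp this)
    have hqS : q ∉ S := by
      intro h
      have := hdv q h 0
      rw [zero_mul, add_zero] at this
      exact hqP this
    obtain ⟨T', hT', hper'⟩ := period (P (r₁ + M₁ * T)) (by omega)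
    refine ⟨r₁ + M₁ * T, T' * M₁, insert q S, by positivity, hMM.mul_left _, ?_, ?_, ?_, ?_⟩
    · have : M₁ * T ≡ 0 [MOD M] := (Nat.modEq_zero_iff_dvd).mpr (hMM.mul_right T)
      simpa using hr.add this
    · rw [Finset.card_insert_of_notMem hqS, hS]
    · intro x hx
      rcases Finset.mem_insert.mp hx with rfl | hx
      · exact hq
      · exact hpr x hx
    · intro x hx j
      rcases Finset.mem_insert.mp hx with rfl | hx
      · have h2 := hper' (r₁ + M₁ * T) (j * M₁)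
        have h3 : x ∣ P (r₁ + M₁ * T) := by rw [heq]; exact hqd.mul_left _
        have h4 : r₁ + M₁ * T + j * M₁ * T' = r₁ + M₁ * T + j * (T' * M₁) := by ring
        rw [h4] at h2
        exact (h2.dvd_iff h3).mpr h3
      · have := hdv x hx (T + j * T')
        have h4 : r₁ + (T + j * T') * M₁ = r₁ + M₁ * T + j * (T' * M₁) := by ring
        rwa [h4] at this

theorem pell_eq (m : ℕ) : (pell m).1 ^ 2 = 8 * (pell m).2 ^ 2 + 1 := by
  induction m with
  | zero => simp [pell]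
  | succ m ih => simp only [pell]; nlinarith

/-- Every arithmetic progression of indices contains a subprogression on which the values
`8 d_m^2 + 1 = 64 b_m^2 + 9` are all divisible by the same `k` distinct primes `≡ 1 mod 8`. -/
theorem result (k r M : ℕ) (hM : 0 < M) :
    ∃ (r' M' : ℕ) (S : Finset ℕ), 0 < M' ∧ M ∣ M' ∧ r' ≡ r [MOD M] ∧
      S.card = k ∧ (∀ q ∈ S, q.Prime ∧ q % 8 = 1) ∧
      ∀ q ∈ S, ∀ j, q ∣ 8 * (pell (r' + j * M')).1 ^ 2 + 1 := by
  obtain ⟨r', M', S, hM', hMM, hr, hS, hpr, hdv⟩ := step (k + 1) r M hM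
  have hc : k ≤ (S.erase 3).card := by
    have := Finset.pred_card_le_card_erase (s := S) (a := 3)
    omega
  obtain ⟨U, hU, hUc⟩ := Finset.exists_subset_card_eq hc
  refine ⟨r', M', U, hM', hMM, hr, hUc, fun q hq => ?_, fun q hq j => ?_⟩
  · have hq' := Finset.mem_erase.mp (hU hq)
    refine ⟨hpr q hq'.2, ?_⟩
    have h1 := hdv q hq'.2 0
    rw [zero_mul, add_zero] at h1
    have h2 := pell_eq r'
    have h3 := factor8 ((pell r').2 : ℤ) ((pell r').1 : ℤ) (by
      have : (((pell r').1 : ℤ)) ^ 2 = 8 * ((pell r').2 : ℤ) ^ 2 + 1 := by exact_mod_cast h2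
      linarith) q (hpr q hq'.2) (by
      have : ((q : ℤ)) ∣ ((P r' : ℕ) : ℤ) := by exact_mod_cast h1
      unfold P at this
      push_cast at this
      exact this)
    exact h3.resolve_left hq'.1
  · exact hdv q (Finset.mem_erase.mp (hU hq)).2 j

end Pool.Agent.Results.MP_f53aaa_nt.SubprogressionPrimes
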